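import Pool.Agent.W870.Pg.Ana1
import Pool.Agent.TH508.LT.Fin2

/-!
The mean number of cuts of a polygon is at most `K (log N)^2`.
-/

set_option autoImplicit false

namespace Pool.Agent.Q218.PJ

open Pool.Agent.H924P H981 Pool.Agent.W870.Pg

/-- **the mean number of cuts** -/
theorem mean_cuts2 : ∃ K : ℝ, 0 ≤ K ∧ ∀ N : ℕ, 2 ≤ N →
    ∑ g ∈ CanF (2 * N - 1), ((cutset g).card : ℝ) ≤ K * Real.log N ^ 2 * (nn N : ℝ) := by
  obtain ⟨K, hK, hPP⟩ := Pool.Agent.TH508.LT.sq_PP2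
  have hmu := mu_pos
  have hmu1 : 1 ≤ mu := one_le_mu
  set θ : ℝ := 1 + mu⁻¹ ^ 2 with hθ
  have hθ1 : 1 < θ := by
    rw [hθ]; have : 0 < mu⁻¹ ^ 2 := by positivity
    linarith
  have hlθ : 0 < Real.log θ := Real.log_pos hθ1
  have hl2 : 0 < Real.log 2 := Real.log_pos (by norm_num)
  -- a bound for the logarithm of the polynomial factor
  set C : ℝ := K + (Real.log 96 + 3 * 1 + 2 * Real.log mu) / Real.log 2 ^ 2 +
    3 / Real.log 2 ^ 1 with hC
  have hlm : 0 ≤ Real.log mu := Real.log_nonneg hmu1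
  have hl96 : 0 ≤ Real.log 96 := Real.log_nonneg (by norm_num)
  have hC0 : 0 ≤ C := by positivity
  refine ⟨C / Real.log θ + 2 / Real.log 2 ^ 2, by positivity, fun N hN => ?_⟩
  have hN' : (2 : ℝ) ≤ N := by exact_mod_cast hN
  have hlN : Real.log 2 ≤ Real.log N := Real.log_le_log (by norm_num) hN'
  have hlN0 : 0 < Real.log N := by linarith
  have hln2 : Real.log 2 ^ 2 ≤ Real.log N ^ 2 := by gcongr
  have hln1 : Real.log 2 ^ 1 ≤ Real.log N ^ 1 := by gcongr
  obtain ⟨L, hL⟩ : ∃ L, 2 * N - 1 = L := ⟨_, rfl⟩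
  have hLr : (L : ℝ) = 2 * N - 1 := by
    rw [← hL]; push_cast [Nat.cast_sub (show 1 ≤ 2 * N by omega)]; ring
  have hnn : (nn N : ℝ) = ((CanF L).card : ℝ) := by unfold nn; rw [hL]
  rw [hL]
  set k1 : ℕ := ⌈C * Real.log N ^ 2 / Real.log θ⌉₊ with hk1
  have hk1' : C * Real.log N ^ 2 / Real.log θ ≤ k1 := Nat.le_ceil _
  have hk1'' : (k1 : ℝ) ≤ C * Real.log N ^ 2 / Real.log θ + 1 :=
    (Nat.ceil_lt_add_one (by positivity)).le
  -- pointwise bound
  have hpt : ∀ g ∈ CanF L, ((cutset g).card : ℝ) ≤ k1 + (L + 1) * (θ⁻¹ ^ k1 * θ ^ (cutset g).card) := by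
    intro g hg
    rw [mem_CanF] at hg
    have h2 : ((cutset g).card : ℝ) ≤ L + 1 := by
      have := cutset_card_le g
      rw [hg.2] at this
      exact_mod_cast this
    by_cases h : (cutset g).card ≤ k1
    · have h3 : ((cutset g).card : ℝ) ≤ k1 := by exact_mod_cast h
      have : 0 ≤ ((L : ℝ) + 1) * (θ⁻¹ ^ k1 * θ ^ (cutset g).card) := by positivity
      linarith
    · have h4 : 1 ≤ θ⁻¹ ^ k1 * θ ^ (cutset g).card := by
        rw [inv_pow, ← div_eq_inv_mul, le_div_iff₀ (by positivity), one_mul]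
        exact pow_le_pow_right₀ hθ1.le (by omega)
      have h5 : ((L : ℝ) + 1) * 1 ≤ (L + 1) * (θ⁻¹ ^ k1 * θ ^ (cutset g).card) := by gcongr
      have h6 : (0 : ℝ) ≤ k1 := Nat.cast_nonneg _
      linarith
  have hsum : ∑ g ∈ CanF L, ((cutset g).card : ℝ) ≤ k1 * (nn N : ℝ) +
      (L + 1) * θ⁻¹ ^ k1 * ((L + 2) * (3 * L + 6) * mu ^ (L + 3)) := by
    calc ∑ g ∈ CanF L, ((cutset g).card : ℝ)
        ≤ ∑ g ∈ CanF L, (k1 + (L + 1) * (θ⁻¹ ^ k1 * θ ^ (cutset g).card)) := Finset.sum_le_sum hpt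
      _ = k1 * (nn N : ℝ) + (L + 1) * θ⁻¹ ^ k1 * ∑ g ∈ CanF L, θ ^ (cutset g).card := by
        rw [Finset.sum_add_distrib, Finset.sum_const, nsmul_eq_mul, hnn, Finset.mul_sum]
        congr 1
        · ring
        · apply Finset.sum_congr rfl
          intro g _
          ring
      _ ≤ _ := by
        have := exp_moment L
        gcongr
  -- the second term is at most `nn N`
  have h2 : (L + 1) * θ⁻¹ ^ k1 * ((L + 2) * (3 * L + 6) * mu ^ (L + 3)) ≤ (nn N : ℝ) := by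
    have hlow := (hPP N hN).1.trans (PP_le_nn hN)
    refine le_trans ?_ hlow
    have e1 : mu ^ (L + 3) = mu ^ (2 * N) * mu ^ 2 := by
      rw [← pow_add]; congr 1; omega
    have e2 : ((L : ℝ) + 1) * ((L + 2) * (3 * L + 6)) ≤ 96 * N ^ 3 := by
      rw [hLr]
      have : (0 : ℝ) ≤ N := by linarith
      nlinarith [mul_nonneg this this, mul_nonneg (mul_nonneg this this) this]
    have e3 : (θ⁻¹ ^ k1 : ℝ) ≤ Real.exp (-(C * Real.log N ^ 2)) := by
      have : (θ⁻¹ ^ k1 : ℝ) = Real.exp (-(k1 * Real.log θ)) := by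
        rw [Real.exp_neg, mul_comm, Real.exp_mul, Real.exp_log (by linarith), Real.rpow_natCast,
          inv_pow]
      rw [this]
      apply Real.exp_le_exp.mpr
      rw [div_le_iff₀ hlθ] at hk1'
      linarith
    have e4 : 96 * (N : ℝ) ^ 3 * mu ^ 2 ≤
        Real.exp ((C - K) * Real.log N ^ 2) := by
      have : 96 * (N : ℝ) ^ 3 * mu ^ 2 = Real.exp (Real.log 96 + 3 * Real.log N + 2 * Real.log mu) := by
        rw [Real.exp_add, Real.exp_add, Real.exp_log (by norm_num)]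
        have a1 : Real.exp (3 * Real.log N) = (N : ℝ) ^ 3 := by
          rw [show (3 : ℝ) = ((3 : ℕ) : ℝ) by norm_num, Real.exp_nat_mul, Real.exp_log (by linarith)]
        have a2 : Real.exp (2 * Real.log mu) = mu ^ 2 := by
          rw [show (2 : ℝ) = ((2 : ℕ) : ℝ) by norm_num, Real.exp_nat_mul, Real.exp_log hmu]
        rw [a1, a2]
      rw [this]
      apply Real.exp_le_exp.mpr
      have b1 : Real.log 96 + 2 * Real.log mu ≤
          (Real.log 96 + 3 * 1 + 2 * Real.log mu) / Real.log 2 ^ 2 * Real.log N ^ 2 := by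
        rw [div_mul_eq_mul_div, le_div_iff₀ (by positivity)]
        have : Real.log 96 + 2 * Real.log mu ≤ Real.log 96 + 3 * 1 + 2 * Real.log mu := by linarith
        calc (Real.log 96 + 2 * Real.log mu) * Real.log 2 ^ 2 ≤
              (Real.log 96 + 3 * 1 + 2 * Real.log mu) * Real.log N ^ 2 := by gcongr
          _ = _ := rfl
      have b2 : 3 * Real.log N ≤ 3 / Real.log 2 ^ 1 * Real.log N ^ 2 := by
        rw [div_mul_eq_mul_div, le_div_iff₀ (by positivity)]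
        calc 3 * Real.log N * Real.log 2 ^ 1 ≤ 3 * Real.log N * Real.log N ^ 1 := by gcongr
          _ = _ := by ring
      have b3 : (C - K) * Real.log N ^ 2 =
          (Real.log 96 + 3 * 1 + 2 * Real.log mu) / Real.log 2 ^ 2 * Real.log N ^ 2 +
          3 / Real.log 2 ^ 1 * Real.log N ^ 2 := by rw [hC]; ring
      rw [b3]
      linarith
    calc ((L : ℝ) + 1) * θ⁻¹ ^ k1 * ((L + 2) * (3 * L + 6) * mu ^ (L + 3))
        = (((L : ℝ) + 1) * ((L + 2) * (3 * L + 6))) * θ⁻¹ ^ k1 * (mu ^ (2 * N) * mu ^ 2) := by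
          rw [e1]; ring
      _ ≤ (96 * N ^ 3) * Real.exp (-(C * Real.log N ^ 2)) * (mu ^ (2 * N) * mu ^ 2) := by gcongr
      _ = (96 * (N : ℝ) ^ 3 * mu ^ 2) * (mu ^ (2 * N) * Real.exp (-(C * Real.log N ^ 2))) := by ring
      _ ≤ Real.exp ((C - K) * Real.log N ^ 2) *
          (mu ^ (2 * N) * Real.exp (-(C * Real.log N ^ 2))) := by gcongr
      _ = mu ^ (2 * N) * (Real.exp ((C - K) * Real.log N ^ 2) * Real.exp (-(C * Real.log N ^ 2))) := by
          ring
      _ = mu ^ (2 * N) * Real.exp (-(K * Real.log N ^ 2)) := by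
          rw [← Real.exp_add]; congr 2; ring
  have h3 : (k1 : ℝ) + 1 ≤ (C / Real.log θ + 2 / Real.log 2 ^ 2) * Real.log N ^ 2 := by
    have : (2 : ℝ) ≤ 2 / Real.log 2 ^ 2 * Real.log N ^ 2 := by
      rw [div_mul_eq_mul_div, le_div_iff₀ (by positivity)]
      gcongr
    calc (k1 : ℝ) + 1 ≤ C * Real.log N ^ 2 / Real.log θ + 1 + 1 := by linarith
      _ ≤ C * Real.log N ^ 2 / Real.log θ + 2 / Real.log 2 ^ 2 * Real.log N ^ 2 := by linarith
      _ = _ := by ring
  calc ∑ g ∈ CanF L, ((cutset g).card : ℝ) ≤ k1 * (nn N : ℝ) + (nn N : ℝ) := by linarith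
    _ = (k1 + 1) * (nn N : ℝ) := by ring
    _ ≤ _ := by gcongr

end Pool.Agent.Q218.PJ
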