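import Pool.Agent.Q218.PJ.Low

/-!
Doubling: `n p_{2n}^2 ≤ K (log n)^3 p_{4n}`.
-/

set_option autoImplicit false

namespace Pool.Agent.Q218.PJ

open Pool.Agent.H924P H981 Pool.Agent.W870.Pg

theorem double : ∃ K : ℝ, 0 ≤ K ∧ ∀ n : ℕ, 2 ≤ n →
    n * PP n ^ 2 ≤ K * Real.log n ^ 3 * PP (2 * n) := by
  obtain ⟨K, hK, hjoin⟩ := join_sqrt
  obtain ⟨C0, hC0, hrat0⟩ := Fp_ratio2
  obtain ⟨C, hC1, hrat⟩ : ∃ C : ℝ, 1 ≤ C ∧ ∀ N : ℕ, 2 ≤ N →
      |Fp (N + 1) / Fp N - 1| ≤ C * (Real.log N / Real.sqrt N) := by
    refine ⟨max 1 C0, le_max_left _ _, fun N hN => (hrat0 N hN).trans ?_⟩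
    apply mul_le_mul_of_nonneg_right (le_max_right _ _)
    exact div_nonneg (Real.log_natCast_nonneg _) (Real.sqrt_nonneg _)
  refine ⟨192 * C * K, by positivity, fun n hn => ?_⟩
  have hn' : (2 : ℝ) ≤ n := by exact_mod_cast hn
  have hl2 : (0.69 : ℝ) < Real.log 2 := by have := Real.log_two_gt_d9; linarith
  have hln : Real.log 2 ≤ Real.log n := Real.log_le_log (by norm_num) hn'
  have hln0 : 0 < Real.log n := by linarith
  have hsn : 0 < Real.sqrt n := Real.sqrt_pos.mpr (by linarith)
  have hsq : Real.sqrt n * Real.sqrt n = n := Real.mul_self_sqrt (by linarith)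
  set x : ℝ := Real.sqrt n / (6 * C * Real.log n) with hx
  have hx0 : 0 < x := by positivity
  set w : ℕ := ⌊x⌋₊ with hw
  have hwx : (w : ℝ) ≤ x := Nat.floor_le hx0.le
  have hxw : x ≤ w + 1 := (Nat.lt_floor_add_one x).le
  have hx4 : x ≤ Real.sqrt n / 4 := by
    apply div_le_div_of_nonneg_left hsn.le (by norm_num)
    nlinarith
  have hs2 : Real.sqrt n ≤ n := by
    rw [Real.sqrt_le_left (by linarith)]
    nlinarith
  have hwn : 4 * w ≤ n := by
    have : (4 : ℝ) * w ≤ n := by linarith
    exact_mod_cast this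
  set δ : ℝ := 3 * C * Real.log n / Real.sqrt n with hδ
  have hδ0 : 0 ≤ δ := by positivity
  have hwδ : (w : ℝ) * δ ≤ 1 / 2 := by
    calc (w : ℝ) * δ ≤ x * δ := by gcongr
      _ = 1 / 2 := by
        rw [hx, hδ]
        field_simp
        norm_num
  -- ratios in the window
  have hwin : ∀ l : ℕ, 3 * n ≤ 4 * l → l ≤ 2 * n → 2 ≤ l → |Fp (l + 1) / Fp l - 1| ≤ δ := by
    intro l hl1 hl2 hl3
    refine (hrat l hl3).trans ?_
    have hl3' : (2 : ℝ) ≤ l := by exact_mod_cast hl3
    have hl1' : (3 : ℝ) * n ≤ 4 * l := by exact_mod_cast hl1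
    have hl2' : (l : ℝ) ≤ 2 * n := by exact_mod_cast hl2
    have a1 : Real.log l ≤ 2 * Real.log n := by
      have : (l : ℝ) ≤ (n : ℝ) ^ 2 := by nlinarith
      have h := Real.log_le_log (by linarith) this
      rw [Real.log_pow] at h
      exact_mod_cast h
    have a2 : 2 / 3 * Real.sqrt n ≤ Real.sqrt l := by
      apply Real.le_sqrt_of_sq_le
      rw [mul_pow, Real.sq_sqrt (by linarith)]
      linarith
    have a3 : Real.log l / Real.sqrt l ≤ 2 * Real.log n / (2 / 3 * Real.sqrt n) := by
      apply div_le_div₀ (by positivity) a1 (by positivity) a2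
    calc C * (Real.log l / Real.sqrt l) ≤ C * (2 * Real.log n / (2 / 3 * Real.sqrt n)) := by gcongr
      _ = δ := by rw [hδ]; field_simp
  have hmu := mu_pos
  -- the products
  have hprod : ∀ i : ℕ, i ≤ w → PP n ^ 2 ≤ 4 * (PP (n - i) * PP (n + i)) := by
    intro i hi
    have hi' : (i : ℝ) * δ ≤ 1 / 2 := by
      have : (i : ℝ) ≤ w := by exact_mod_cast hi
      calc (i : ℝ) * δ ≤ w * δ := by gcongr
        _ ≤ _ := hwδ
    have hni : 2 ≤ n - i := by
      rcases Nat.lt_or_ge n 4 with h | h
      · have : w = 0 := by omega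
        omega
      · omega
    have b1 := (win2 (a := n - i) (k := i) hni hδ0
      (fun l h1 h2 => hwin l (by omega) (by omega) (by omega)) hi').2
    have b2 := (win2 (a := n) (k := i) hn hδ0
      (fun l h1 h2 => hwin l (by omega) (by omega) (by omega)) hi').1
    have e : n - i + i = n := by omega
    rw [e] at b1
    have hp1 := Fp_pos hn
    have hp2 := Fp_pos hni
    have hp3 := Fp_pos (N := n + i) (by omega)
    have b3 : Fp n ^ 2 ≤ 4 * (Fp (n - i) * Fp (n + i)) := by
      calc Fp n ^ 2 = Fp n * Fp n := sq _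
        _ ≤ (2 * Fp (n - i)) * (2 * Fp (n + i)) := by gcongr
        _ = _ := by ring
    unfold Fp at b3
    have e1 : PP (n - i) / mu ^ (2 * (n - i)) * (PP (n + i) / mu ^ (2 * (n + i))) =
        (PP (n - i) * PP (n + i)) / mu ^ (4 * n) := by
      rw [div_mul_div_comm, ← pow_add]
      congr 2
      omega
    have e2 : (PP n / mu ^ (2 * n)) ^ 2 = PP n ^ 2 / mu ^ (4 * n) := by
      rw [div_pow, ← pow_mul]
      congr 2
      omega
    rw [e1, e2, ← mul_div_assoc] at b3
    exact (div_le_div_iff_of_pos_right (pow_pos hmu _)).mp b3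
  have h1 := hjoin (2 * n) (by omega)
  have h2 : (w + 1 : ℝ) * (Real.sqrt n / 2 * (PP n ^ 2 / 4)) ≤
      ∑ j ∈ Finset.Icc 2 (2 * n - 2), Real.sqrt (min j (2 * n - j) : ℕ) * PP j * PP (2 * n - j) := by
    calc (w + 1 : ℝ) * (Real.sqrt n / 2 * (PP n ^ 2 / 4))
        = ∑ i ∈ Finset.range (w + 1), (Real.sqrt n / 2 * (PP n ^ 2 / 4)) := by
          rw [Finset.sum_const, Finset.card_range, nsmul_eq_mul]
          push_cast; ring
      _ ≤ ∑ i ∈ Finset.range (w + 1), Real.sqrt (min (n - i) (2 * n - (n - i)) : ℕ) * PP (n - i) *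
            PP (2 * n - (n - i)) := by
          apply Finset.sum_le_sum
          intro i hi
          rw [Finset.mem_range] at hi
          have c1 := hprod i (by omega)
          have e : 2 * n - (n - i) = n + i := by omega
          have e2 : min (n - i) (2 * n - (n - i)) = n - i := by omega
          rw [e2, e]
          have hni : 2 ≤ n - i := by
            rcases Nat.lt_or_ge n 4 with h | h
            · have : w = 0 := by omega
              omega
            · omega
          have hp2 := PP_pos hni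
          have hp3 := PP_pos (N := n + i) (by omega)
          have c2 : Real.sqrt n / 2 ≤ Real.sqrt (n - i : ℕ) := by
            apply Real.le_sqrt_of_sq_le
            rw [div_pow, Real.sq_sqrt (by linarith)]
            have : (n : ℝ) ≤ 4 * ((n - i : ℕ) : ℝ) := by
              have : n ≤ 4 * (n - i) := by omega
              exact_mod_cast this
            linarith
          rw [mul_assoc]
          have c3 : PP n ^ 2 / 4 ≤ PP (n - i) * PP (n + i) := by linarith
          gcongr
      _ = ∑ j ∈ (Finset.range (w + 1)).image (fun i => n - i),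
            Real.sqrt (min j (2 * n - j) : ℕ) * PP j * PP (2 * n - j) := by
          rw [Finset.sum_image]
          intro a ha b hb hab
          rw [Finset.mem_coe, Finset.mem_range] at ha hb
          simp only at hab
          omega
      _ ≤ _ := by
          apply Finset.sum_le_sum_of_subset_of_nonneg
          · intro j hj
            rw [Finset.mem_image] at hj
            obtain ⟨i, hi, rfl⟩ := hj
            rw [Finset.mem_range] at hi
            rw [Finset.mem_Icc]
            have hni : 2 ≤ n - i := by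
              rcases Nat.lt_or_ge n 4 with h | h
              · have : w = 0 := by omega
                omega
              · omega
            omega
          · intro j hj _
            rw [Finset.mem_Icc] at hj
            have q1 := PP_pos (N := j) hj.1
            have q2 := PP_pos (N := 2 * n - j) (by omega)
            positivity
  have h3 : x * (Real.sqrt n / 2 * (PP n ^ 2 / 4)) ≤ K * Real.log ((2 * n : ℕ) : ℝ) ^ 2 * PP (2 * n) := by
    calc x * (Real.sqrt n / 2 * (PP n ^ 2 / 4)) ≤ (w + 1 : ℝ) * (Real.sqrt n / 2 * (PP n ^ 2 / 4)) := by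
          apply mul_le_mul_of_nonneg_right hxw
          positivity
      _ ≤ _ := h2.trans h1
  have e3 : x * (Real.sqrt n / 2 * (PP n ^ 2 / 4)) = n * PP n ^ 2 / (48 * C * Real.log n) := by
    rw [hx]
    have : Real.sqrt n / (6 * C * Real.log n) * (Real.sqrt n / 2 * (PP n ^ 2 / 4)) =
        (Real.sqrt n * Real.sqrt n) * PP n ^ 2 / (48 * C * Real.log n) := by
      field_simp
      ring
    rw [this, hsq]
  rw [e3, div_le_iff₀ (by positivity)] at h3
  have hl4 : Real.log ((2 * n : ℕ) : ℝ) ≤ 1.7 * Real.log n + 0.3 * Real.log n := by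
    have : ((2 * n : ℕ) : ℝ) ≤ (n : ℝ) ^ 2 := by push_cast; nlinarith
    have h := Real.log_le_log (by push_cast; linarith) this
    rw [Real.log_pow] at h
    push_cast at h ⊢
    linarith
  have hl5 : 0 ≤ Real.log ((2 * n : ℕ) : ℝ) := Real.log_natCast_nonneg _
  have hP2 := (PP_pos (N := 2 * n) (by omega)).le
  refine h3.trans ?_
  have hl6 : Real.log ((2 * n : ℕ) : ℝ) ^ 2 ≤ 4 * Real.log n ^ 2 := by
    calc Real.log ((2 * n : ℕ) : ℝ) ^ 2 ≤ (2 * Real.log n) ^ 2 := by
          apply pow_le_pow_left₀ hl5; linarith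
      _ = _ := by ring
  calc K * Real.log ((2 * n : ℕ) : ℝ) ^ 2 * PP (2 * n) * (48 * C * Real.log n)
      ≤ K * (4 * Real.log n ^ 2) * PP (2 * n) * (48 * C * Real.log n) := by gcongr
    _ = _ := by ring

end Pool.Agent.Q218.PJ
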