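import Pool.Agent.Q218.PJ.Cuts
import Pool.Agent.TH546.PC.Join
import Pool.Agent.W387.Q.Poly
import Pool.Agent.TH508.LT.Gap2

/-!
The join inequality without restriction on the heights.
-/

set_option autoImplicit false

namespace Pool.Agent.Q218.PJ

open Pool.Agent.H924P H981 Pool.Agent.W870.Pg

/-- the triples to be joined -/
noncomputable def EE (T : ℕ) : Finset ((_ : ℕ) × (_ : List V) × (_ : List V) × ℕ) :=
  (Finset.range (T + 1)).sigma (fun m => (CanF m).sigma (fun A => (CanF (T - m)).sigma (fun B =>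
    Finset.Icc (ht A + 1 - min (ht A) (ht B)) (ht A))))

lemma EE_card (T : ℕ) : (EE T).card = ∑ m ∈ Finset.range (T + 1), ∑ A ∈ CanF m,
    ∑ B ∈ CanF (T - m), min (ht A) (ht B) := by
  unfold EE
  rw [Finset.card_sigma]
  apply Finset.sum_congr rfl
  intro m _
  rw [Finset.card_sigma]
  apply Finset.sum_congr rfl
  intro A _
  rw [Finset.card_sigma]
  apply Finset.sum_congr rfl
  intro B _
  rw [Nat.card_Icc]
  have := min_le_left (ht A) (ht B)
  omega

/-- the relation between the triples and the places -/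
def RE (x : (_ : ℕ) × (_ : List V) × (_ : List V) × ℕ)
    (y : ((_ : ℕ) × (_ : List V) × ℕ) × JD) : Prop :=
  ∃ X Y Z : List V, y.1.2.1 = X ++ Y ++ Z ∧ X.length = y.1.2.2 ∧ Cut X Y Z ∧
    JR x.2.1 x.2.2.1 x.2.2.2 X Y Z y.2.1 y.2.2.1 y.2.2.2.1 y.2.2.2.2.1 y.2.2.2.2.2.1
      (sg y.2.2.2.2.2.2.1) (sg y.2.2.2.2.2.2.2)

theorem join_sumE (T : ℕ) : (EE T).card ≤ (GS T).card := by
  classical
  refine Finset.card_le_card_of_forall_subsingleton RE ?_ ?_
  · rintro ⟨m, A, B, s⟩ hx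
    simp only [EE, Finset.mem_sigma, Finset.mem_range, Finset.mem_Icc, mem_CanF] at hx
    obtain ⟨hm, ⟨hA, hAl⟩, ⟨hB, hBl⟩, hs1, hs2⟩ := hx
    have h1 := min_le_left (ht A) (ht B)
    have h2 := min_le_right (ht A) (ht B)
    obtain ⟨X, Y, Z, kA, kB, bA, bB, bM, σA, σB, hσA, hσB, hJ, hC, hcut, hlen⟩ :=
      Pool.Agent.TH546.PC.join' hA hB (s := (s : ℤ)) (by omega) (by omega) (by omega)
    obtain ⟨eA, rfl⟩ := exists_sg hσA
    obtain ⟨eB, rfl⟩ := exists_sg hσB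
    refine ⟨(⟨1 + cf kA + cf kB, X ++ Y ++ Z, X.length⟩, (kA, kB, bA, bB, bM, eA, eB)), ?_, ?_⟩
    · simp only [GS, Finset.mem_product, Finset.mem_sigma, Finset.mem_univ, and_true, mem_CanF]
      refine ⟨?_, ⟨hC, ?_⟩, ?_⟩
      · unfold cf
        simp only [Finset.mem_insert, Finset.mem_singleton]
        split_ifs <;> omega
      · rw [hlen]; omega
      · rw [mem_cutset]
        exact ⟨Z.length, X, Y, Z, rfl, rfl, rfl, hcut⟩
    · exact ⟨X, Y, Z, rfl, rfl, hcut, hJ⟩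
  · rintro ⟨⟨c, g, a⟩, kA, kB, bA, bB, bM, eA, eB⟩ hy
    simp only [GS, Finset.mem_product, Finset.mem_sigma, Finset.mem_univ, and_true, mem_CanF] at hy
    have hg := hy.2.1.1
    rintro ⟨m, A, B, s⟩ hx ⟨m', A', B', s'⟩ hx'
    simp only [Set.mem_setOf_eq, EE, Finset.mem_sigma, Finset.mem_range, 
      Finset.mem_Icc, mem_CanF] at hx hx'
    obtain ⟨⟨hm, ⟨hA, hAl⟩, ⟨hB, hBl⟩, hs1, hs2⟩, X, Y, Z, h1, h2, h3, h4⟩ := hx
    obtain ⟨⟨hm', ⟨hA', hAl'⟩, ⟨hB', hBl'⟩, hs1', hs2'⟩, X', Y', Z', h1', h2', h3', h4'⟩ := hx'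
    simp only at h1 h2 h3 h4 h1' h2' h3' h4'
    have hZ : Z.length = Z'.length := IsC_uniq hg ⟨X, Y, Z, h1, h2, rfl, h3⟩
      ⟨X', Y', Z', h1', h2', rfl, h3'⟩
    have e := h1.symm.trans h1'
    have e1 := List.append_inj' e hZ
    have e2 := List.append_inj e1.1 (by omega)
    obtain ⟨⟨rfl, rfl⟩, rfl⟩ := And.intro e2 e1.2
    obtain ⟨f1, f2, f3⟩ := JR_inj h4 h4'
    subst f1 f2
    have f4 : s = s' := by exact_mod_cast f3
    have f5 : m = m' := by omega
    subst f4 f5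
    rfl

/-- **The join inequality** -/
theorem join_ineqE (T : ℕ) :
    ∑ m ∈ Finset.range (T + 1), ∑ A ∈ CanF m, ∑ B ∈ CanF (T - m), min (ht A) (ht B) ≤
    800 * ∑ c ∈ ({9, 11, 13} : Finset ℕ), ∑ g ∈ CanF (T + c), (cutset g).card := by
  have := join_sumE T
  rw [EE_card, GS_card] at this
  omega

/-- the sum of the minima of the widths over the pairs of polygons of perimeters `2j`, `2k`, up to
translation -/
noncomputable def MM (j k : ℕ) : ℝ :=
  (∑ f ∈ LF (2 * j), ∑ g ∈ LF (2 * k), (min (width (2 * j) f) (width (2 * k) g) : ℕ)) /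
    (16 * (j : ℝ) * k)

lemma MM_nonneg (j k : ℕ) : 0 ≤ MM j k := by unfold MM; positivity

lemma MM_le {j k : ℕ} (hj : 2 ≤ j) (hk : 2 ≤ k) :
    MM j k ≤ ((∑ A ∈ CanF (2 * j - 1), ∑ B ∈ CanF (2 * k - 1), min (ht A) (ht B) : ℕ) : ℝ) := by
  have : NeZero (2 * j) := ⟨by omega⟩
  have : NeZero (2 * k) := ⟨by omega⟩
  have h1 : ∀ f : ZMod (2 * j) → V,
      ∑ g ∈ LF (2 * k), min (width (2 * j) f) (width (2 * k) g) ≤
      2 * (2 * k) * ∑ B ∈ CanF (2 * k - 1), min (width (2 * j) f) (ht B) := by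
    intro f
    exact sum_loops_le (m := 2 * k) (by omega) (fun g => min (width (2 * j) f) (width (2 * k) g))
      (fun B => min (width (2 * j) f) (ht B)) (fun g B _ _ h => min_le_min le_rfl h)
  have h2 : ∑ f ∈ LF (2 * j), ∑ B ∈ CanF (2 * k - 1), min (width (2 * j) f) (ht B) ≤
      2 * (2 * j) * ∑ A ∈ CanF (2 * j - 1), ∑ B ∈ CanF (2 * k - 1), min (ht A) (ht B) :=
    sum_loops_le (m := 2 * j) (by omega) (fun f => ∑ B ∈ CanF (2 * k - 1),
      min (width (2 * j) f) (ht B)) (fun A => ∑ B ∈ CanF (2 * k - 1), min (ht A) (ht B))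
      (fun f A _ _ h => Finset.sum_le_sum (fun B _ => min_le_min h le_rfl))
  have h3 : ∑ f ∈ LF (2 * j), ∑ g ∈ LF (2 * k), min (width (2 * j) f) (width (2 * k) g) ≤
      16 * j * k * ∑ A ∈ CanF (2 * j - 1), ∑ B ∈ CanF (2 * k - 1), min (ht A) (ht B) := by
    calc ∑ f ∈ LF (2 * j), ∑ g ∈ LF (2 * k), min (width (2 * j) f) (width (2 * k) g)
        ≤ ∑ f ∈ LF (2 * j), 2 * (2 * k) * ∑ B ∈ CanF (2 * k - 1), min (width (2 * j) f) (ht B) :=
          Finset.sum_le_sum (fun f _ => h1 f)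
      _ = 2 * (2 * k) * ∑ f ∈ LF (2 * j), ∑ B ∈ CanF (2 * k - 1), min (width (2 * j) f) (ht B) := by
          rw [Finset.mul_sum]
      _ ≤ 2 * (2 * k) * (2 * (2 * j) * ∑ A ∈ CanF (2 * j - 1), ∑ B ∈ CanF (2 * k - 1),
          min (ht A) (ht B)) := Nat.mul_le_mul le_rfl h2
      _ = _ := by ring
  have hj' : (2 : ℝ) ≤ j := by exact_mod_cast hj
  have hk' : (2 : ℝ) ≤ k := by exact_mod_cast hk
  unfold MM
  rw [div_le_iff₀ (by positivity)]
  have h4 : ((∑ f ∈ LF (2 * j), ∑ g ∈ LF (2 * k), min (width (2 * j) f) (width (2 * k) g) : ℕ) : ℝ) ≤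
      ((16 * j * k * ∑ A ∈ CanF (2 * j - 1), ∑ B ∈ CanF (2 * k - 1), min (ht A) (ht B) : ℕ) : ℝ) := by
    exact_mod_cast h3
  push_cast at h4 ⊢
  linarith

/-- ratios of the numbers of polygons are bounded -/
lemma ratio_bdd : ∃ C : ℝ, 1 ≤ C ∧ ∀ n : ℕ, 2 ≤ n → ∀ i : ℕ, PP (n + i) ≤ C ^ i * PP n := by
  obtain ⟨K, hK⟩ := Pool.Agent.W387.Q.f1
  have hlim : Filter.Tendsto (fun n : ℕ => K * (Real.log n / Real.sqrt n)) Filter.atTop (nhds 0) := by
    have h1 : Filter.Tendsto (fun n : ℕ => Real.log n / Real.sqrt n) Filter.atTop (nhds 0) := by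
      have h2 := (isLittleO_log_rpow_atTop (show (0:ℝ) < 1/2 by norm_num)).tendsto_div_nhds_zero
      have h3 := h2.comp tendsto_natCast_atTop_atTop
      refine h3.congr (fun n => ?_)
      simp [Real.sqrt_eq_rpow]
    simpa using h1.const_mul K
  obtain ⟨b, hb⟩ := hlim.bddAbove_range
  refine ⟨max 1 (mu ^ 2 + b), le_max_left _ _, fun n hn i => ?_⟩
  induction i with
  | zero => simp
  | succ i ih =>
    have h1 := hK (n + i) (by omega)
    rw [Pool.Agent.TH508.LT.rN_eq (by omega)] at h1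
    have h2 := hb ⟨n + i, rfl⟩
    have h3 := (abs_le.mp h1).2
    have hP := PP_pos (N := n + i) (by omega)
    have h4 : PP (n + i + 1) / PP (n + i) ≤ max 1 (mu ^ 2 + b) := by
      refine le_trans ?_ (le_max_right _ _)
      simp only at h2
      linarith
    rw [div_le_iff₀ hP] at h4
    calc PP (n + (i + 1)) = PP (n + i + 1) := by rw [add_assoc]
      _ ≤ max 1 (mu ^ 2 + b) * PP (n + i) := h4
      _ ≤ max 1 (mu ^ 2 + b) * ((max 1 (mu ^ 2 + b)) ^ i * PP n) := by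
        apply mul_le_mul_of_nonneg_left ih (by positivity)
      _ = _ := by ring

/-- **the join inequality for the numbers of polygons** -/
theorem join_all : ∃ K : ℝ, 0 ≤ K ∧ ∀ N : ℕ, 4 ≤ N →
    ∑ j ∈ Finset.Icc 2 (N - 2), MM j (N - j) ≤ K * Real.log N ^ 2 * PP N := by
  classical
  obtain ⟨K, hK, hcut⟩ := mean_cuts2
  obtain ⟨C, hC, hrat⟩ := ratio_bdd
  refine ⟨800 * (3 * (K * (9 * (2 * C ^ 6)))), by positivity, fun N hN => ?_⟩
  have h1 := join_ineqE (2 * N - 2)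
  have h2 : ∑ j ∈ Finset.Icc 2 (N - 2), MM j (N - j) ≤
      ((∑ m ∈ Finset.range (2 * N - 2 + 1), ∑ A ∈ CanF m, ∑ B ∈ CanF (2 * N - 2 - m),
        min (ht A) (ht B) : ℕ) : ℝ) := by
    calc ∑ j ∈ Finset.Icc 2 (N - 2), MM j (N - j)
        ≤ ∑ j ∈ Finset.Icc 2 (N - 2), ((∑ A ∈ CanF (2 * j - 1),
            ∑ B ∈ CanF (2 * N - 2 - (2 * j - 1)), min (ht A) (ht B) : ℕ) : ℝ) := by
          apply Finset.sum_le_sum
          intro j hj
          rw [Finset.mem_Icc] at hj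
          have a1 := MM_le (j := j) (k := N - j) hj.1 (by omega)
          have e : 2 * N - 2 - (2 * j - 1) = 2 * (N - j) - 1 := by omega
          rw [e]
          exact a1
      _ = ((∑ j ∈ Finset.Icc 2 (N - 2), ∑ A ∈ CanF (2 * j - 1),
            ∑ B ∈ CanF (2 * N - 2 - (2 * j - 1)), min (ht A) (ht B) : ℕ) : ℝ) := by
          push_cast; rfl
      _ = ((∑ m ∈ (Finset.Icc 2 (N - 2)).image (fun j => 2 * j - 1), ∑ A ∈ CanF m,
            ∑ B ∈ CanF (2 * N - 2 - m), min (ht A) (ht B) : ℕ) : ℝ) := by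
          rw [Finset.sum_image]
          intro a ha b hb hab
          rw [Finset.mem_coe, Finset.mem_Icc] at ha hb
          simp only at hab
          omega
      _ ≤ _ := by
          norm_cast
          apply Finset.sum_le_sum_of_subset
          intro m hm
          rw [Finset.mem_image] at hm
          obtain ⟨j, hj, rfl⟩ := hm
          rw [Finset.mem_Icc] at hj
          rw [Finset.mem_range]
          omega
  have hN' : (4 : ℝ) ≤ N := by exact_mod_cast hN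
  have key : ∀ c : ℕ, c ≤ 6 → ((∑ g ∈ CanF (2 * (N + c) - 1), (cutset g).card : ℕ) : ℝ) ≤
      K * (9 * (2 * C ^ 6)) * (Real.log N ^ 2 * PP N) := by
    intro c hc
    have b1 := hcut (N + c) (by omega)
    have b2 := nn_le_PP (N := N + c) (by omega)
    have b3 : 0 ≤ Real.log N := Real.log_natCast_nonneg _
    have b4 := hrat N (by omega) c
    have b5 : C ^ c ≤ C ^ 6 := pow_le_pow_right₀ hC hc
    have hP := (PP_pos (N := N) (by omega)).le
    have b6 : Real.log ((N + c : ℕ) : ℝ) ≤ 3 * Real.log N := by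
      have : ((N + c : ℕ) : ℝ) ≤ (N : ℝ) ^ 3 := by
        have hc' : (c : ℝ) ≤ 6 := by exact_mod_cast hc
        push_cast
        nlinarith [mul_nonneg (show (0:ℝ) ≤ N - 4 by linarith) (show (0:ℝ) ≤ N by linarith)]
      have h := Real.log_le_log (by push_cast; positivity) this
      rw [Real.log_pow] at h
      exact_mod_cast h
    have b7 : 0 ≤ Real.log ((N + c : ℕ) : ℝ) := Real.log_natCast_nonneg _
    push_cast at b1 b6 b7 ⊢
    calc _ ≤ K * Real.log ((N : ℝ) + c) ^ 2 * (nn (N + c) : ℝ) := b1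
      _ ≤ K * (3 * Real.log N) ^ 2 * (2 * (C ^ 6 * PP N)) := by
        have : (nn (N + c) : ℝ) ≤ 2 * (C ^ 6 * PP N) := by
          refine b2.trans ?_
          have : PP (N + c) ≤ C ^ 6 * PP N := b4.trans (by gcongr)
          linarith
        gcongr
      _ = _ := by ring
  have h6 : ((∑ m ∈ Finset.range (2 * N - 2 + 1), ∑ A ∈ CanF m, ∑ B ∈ CanF (2 * N - 2 - m),
      min (ht A) (ht B) : ℕ) : ℝ) ≤
      ((800 * ∑ c ∈ ({9, 11, 13} : Finset ℕ), ∑ g ∈ CanF (2 * N - 2 + c), (cutset g).card : ℕ) : ℝ) := by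
    exact_mod_cast h1
  have s1 : ({9, 11, 13} : Finset ℕ).sum (fun c => ∑ g ∈ CanF (2 * N - 2 + c), (cutset g).card) =
      (∑ g ∈ CanF (2 * N - 2 + 9), (cutset g).card) +
      ((∑ g ∈ CanF (2 * N - 2 + 11), (cutset g).card) +
      (∑ g ∈ CanF (2 * N - 2 + 13), (cutset g).card)) := by
    rw [Finset.sum_insert (by simp), Finset.sum_insert (by simp), Finset.sum_singleton]
  rw [s1] at h6
  have e1 : 2 * N - 2 + 9 = 2 * (N + 4) - 1 := by omega
  have e2 : 2 * N - 2 + 11 = 2 * (N + 5) - 1 := by omega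
  have e3 : 2 * N - 2 + 13 = 2 * (N + 6) - 1 := by omega
  rw [e1, e2, e3] at h6
  have k1 := key 4 (by norm_num)
  have k2 := key 5 (by norm_num)
  have k3 := key 6 (by norm_num)
  rw [Nat.cast_mul, Nat.cast_add, Nat.cast_add] at h6
  refine (h2.trans h6).trans ?_
  have e800 : ((800 : ℕ) : ℝ) = 800 := by norm_num
  rw [e800]
  linarith

end Pool.Agent.Q218.PJ
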