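import Pool.Agent.Q218.PJ.Join
import Pool.Agent.W870.Pg.Ana2
import Pool.Agent.H924P.Mean

/-!
Lower bounds for the sum of the minima of the widths.
-/

set_option autoImplicit false

namespace Pool.Agent.Q218.PJ

open Pool.Agent.H924P H981 Pool.Agent.W870.Pg

/-- half of the loops are wide -/
lemma half_wide {N M : ℕ} (hN : 2 ≤ N) (hM : (M + 1) ^ 2 ≤ 2 * N) :
    (LF (2 * N)).card ≤ 2 * (∑ f ∈ LF (2 * N), if M ≤ width (2 * N) f then 1 else 0) := by
  classical
  have : NeZero (2 * N) := ⟨by omega⟩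
  have h2 : (∑ f ∈ LF (2 * N), if M ≤ height (2 * N) f then 1 else 0) =
      ∑ f ∈ LF (2 * N), if M ≤ width (2 * N) f then 1 else 0 :=
    sum_swp (m := 2 * N) (fun f => if M ≤ width (2 * N) f then 1 else 0)
  have h3 : (LF (2 * N)).card ≤ ∑ f ∈ LF (2 * N), ((if M ≤ width (2 * N) f then 1 else 0) +
      (if M ≤ height (2 * N) f then 1 else 0)) := by
    rw [Finset.card_eq_sum_ones]
    apply Finset.sum_le_sum
    intro f hf
    rw [mem_LF] at hf
    have hb := box_card hf.2.1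
    by_contra hcon
    have c1 : ¬ M ≤ width (2 * N) f := by
      intro h; rw [if_pos h] at hcon; omega
    have c2 : ¬ M ≤ height (2 * N) f := by
      intro h; rw [if_pos h] at hcon; omega
    have c3 : (width (2 * N) f + 1) * (height (2 * N) f + 1) ≤ M * M :=
      Nat.mul_le_mul (by omega) (by omega)
    nlinarith
  rw [Finset.sum_add_distrib, h2] at h3
  omega

lemma PP_mul {N : ℕ} (hN : 2 ≤ N) : PP N = ((LF (2 * N)).card : ℝ) / (4 * N) := by
  have hN' : (2 : ℝ) ≤ N := by exact_mod_cast hN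
  rw [loops_eq (by omega)]
  field_simp

/-- the width of the first polygon, against a wide second polygon -/
lemma MM_ge_width {j k M : ℕ} (hj : 2 ≤ j) (hk : 2 ≤ k) (hM : (M + 1) ^ 2 ≤ 2 * k)
    (hjM : 4 * j ≤ M) : MW j * PP j * PP k ≤ 2 * MM j k := by
  have : NeZero (2 * j) := ⟨by omega⟩
  have : NeZero (2 * k) := ⟨by omega⟩
  have hj' : (2 : ℝ) ≤ j := by exact_mod_cast hj
  have hk' : (2 : ℝ) ≤ k := by exact_mod_cast hk
  have hLj : (0 : ℝ) < ((LF (2 * j)).card : ℝ) := by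
    rw [loops_eq (by omega)]
    have := PP_pos hj
    positivity
  have h1 := half_wide (N := k) hk hM
  have h2 : (∑ f ∈ LF (2 * j), width (2 * j) f) * (LF (2 * k)).card ≤
      2 * ∑ f ∈ LF (2 * j), ∑ g ∈ LF (2 * k), min (width (2 * j) f) (width (2 * k) g) := by
    calc (∑ f ∈ LF (2 * j), width (2 * j) f) * (LF (2 * k)).card
        ≤ (∑ f ∈ LF (2 * j), width (2 * j) f) *
          (2 * (∑ f ∈ LF (2 * k), if M ≤ width (2 * k) f then 1 else 0)) :=
          Nat.mul_le_mul le_rfl h1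
      _ = 2 * ∑ f ∈ LF (2 * j), ∑ g ∈ LF (2 * k),
          width (2 * j) f * (if M ≤ width (2 * k) g then 1 else 0) := by
          rw [mul_left_comm, Finset.sum_mul]
          simp_rw [Finset.mul_sum]
      _ ≤ _ := by
          apply Nat.mul_le_mul le_rfl
          apply Finset.sum_le_sum
          intro f hf
          apply Finset.sum_le_sum
          intro g hg
          rw [mem_LF] at hf
          have hw : width (2 * j) f ≤ 2 * (2 * j) := all_width (m := 2 * j) (f := f) hf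
          split_ifs with h
          · rw [mul_one]
            exact le_min le_rfl (by omega)
          · simp
  have h3 : (∑ f ∈ LF (2 * j), (width (2 * j) f : ℝ)) * ((LF (2 * k)).card : ℝ) ≤
      2 * ((∑ f ∈ LF (2 * j), ∑ g ∈ LF (2 * k), min (width (2 * j) f) (width (2 * k) g) : ℕ) : ℝ) := by
    exact_mod_cast h2
  unfold MM MW
  rw [PP_mul hj, PP_mul hk]
  have e1 : (∑ f ∈ LF (2 * j), (width (2 * j) f : ℝ)) / ((LF (2 * j)).card : ℝ) *
      (((LF (2 * j)).card : ℝ) / (4 * j)) * (((LF (2 * k)).card : ℝ) / (4 * k)) =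
      ((∑ f ∈ LF (2 * j), (width (2 * j) f : ℝ)) * ((LF (2 * k)).card : ℝ)) / (16 * j * k) := by
    field_simp
    ring
  rw [e1, ← mul_div_assoc]
  gcongr

/-- two wide polygons -/
lemma MM_ge_M {j k M : ℕ} (hj : 2 ≤ j) (hk : 2 ≤ k) (hMj : (M + 1) ^ 2 ≤ 2 * j)
    (hMk : (M + 1) ^ 2 ≤ 2 * k) : M * (PP j * PP k) ≤ 4 * MM j k := by
  have : NeZero (2 * j) := ⟨by omega⟩
  have : NeZero (2 * k) := ⟨by omega⟩
  have hj' : (2 : ℝ) ≤ j := by exact_mod_cast hj
  have hk' : (2 : ℝ) ≤ k := by exact_mod_cast hk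
  have h1 := half_wide (N := k) hk hMk
  have h1' := half_wide (N := j) hj hMj
  have h2 : M * ((LF (2 * j)).card * (LF (2 * k)).card) ≤
      4 * ∑ f ∈ LF (2 * j), ∑ g ∈ LF (2 * k), min (width (2 * j) f) (width (2 * k) g) := by
    calc M * ((LF (2 * j)).card * (LF (2 * k)).card)
        ≤ M * ((2 * (∑ f ∈ LF (2 * j), if M ≤ width (2 * j) f then 1 else 0)) *
          (2 * (∑ f ∈ LF (2 * k), if M ≤ width (2 * k) f then 1 else 0))) :=
          Nat.mul_le_mul le_rfl (Nat.mul_le_mul h1' h1)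
      _ = 4 * ∑ f ∈ LF (2 * j), ∑ g ∈ LF (2 * k),
          M * ((if M ≤ width (2 * j) f then 1 else 0) * (if M ≤ width (2 * k) g then 1 else 0)) := by
          simp_rw [← Finset.mul_sum]
          rw [← Finset.sum_mul]
          ring
      _ ≤ _ := by
          apply Nat.mul_le_mul le_rfl
          apply Finset.sum_le_sum
          intro f _
          apply Finset.sum_le_sum
          intro g _
          split_ifs with h h'
          · simp only [mul_one]
            exact le_min h h'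
          · simp
          · simp
          · simp
  have h3 : (M : ℝ) * (((LF (2 * j)).card : ℝ) * ((LF (2 * k)).card : ℝ)) ≤
      4 * ((∑ f ∈ LF (2 * j), ∑ g ∈ LF (2 * k), min (width (2 * j) f) (width (2 * k) g) : ℕ) : ℝ) := by
    exact_mod_cast h2
  unfold MM
  rw [PP_mul hj, PP_mul hk]
  have e1 : (M : ℝ) * (((LF (2 * j)).card : ℝ) / (4 * j) * (((LF (2 * k)).card : ℝ) / (4 * k))) =
      ((M : ℝ) * (((LF (2 * j)).card : ℝ) * ((LF (2 * k)).card : ℝ))) / (16 * j * k) := by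
    field_simp
    ring
  rw [e1, ← mul_div_assoc]
  gcongr

lemma MM_ge_sqrt {j k : ℕ} (hj : 2 ≤ j) (hk : 2 ≤ k) :
    Real.sqrt (min j k : ℕ) * PP j * PP k ≤ 8 * MM j k := by
  set m := min j k with hm
  have hm2 : 2 ≤ m := le_min hj hk
  set M := Nat.sqrt (2 * m) - 1 with hM
  have hs : 2 ≤ Nat.sqrt (2 * m) := by
    rw [Nat.le_sqrt]; omega
  have hs2 : Nat.sqrt (2 * m) * Nat.sqrt (2 * m) ≤ 2 * m := Nat.sqrt_le _
  have hs3 : 2 * m < (Nat.sqrt (2 * m) + 1) * (Nat.sqrt (2 * m) + 1) := Nat.lt_succ_sqrt _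
  have hMM : (M + 1) ^ 2 ≤ 2 * m := by
    have : M + 1 = Nat.sqrt (2 * m) := by omega
    rw [this, sq]; exact hs2
  have h1 := MM_ge_M (j := j) (k := k) (M := M) hj hk
    (hMM.trans (Nat.mul_le_mul le_rfl (min_le_left _ _)))
    (hMM.trans (Nat.mul_le_mul le_rfl (min_le_right _ _)))
  have h2 : Real.sqrt (m : ℕ) ≤ 2 * M := by
    apply Real.sqrt_le_iff.mpr
    refine ⟨by positivity, ?_⟩
    have h3 : m ≤ (2 * M) ^ 2 := by
      set s := Nat.sqrt (2 * m) with hs'
      obtain ⟨t, ht⟩ : ∃ t, s = t + 2 := ⟨s - 2, by omega⟩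
      have hMt : M = t + 1 := by omega
      rw [hMt]
      rw [ht] at hs3
      have : 2 * m < (t + 3) * (t + 3) := by
        calc _ < _ := hs3
          _ = _ := by ring
      nlinarith
    exact_mod_cast h3
  have hP := PP_pos hj
  have hP' := PP_pos hk
  calc Real.sqrt (m : ℕ) * PP j * PP k ≤ (2 * M) * PP j * PP k := by gcongr
    _ = 2 * (M * (PP j * PP k)) := by ring
    _ ≤ 2 * (4 * MM j k) := by linarith
    _ = _ := by ring

/-- **the join inequality with the square roots** -/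
theorem join_sqrt : ∃ K : ℝ, 0 ≤ K ∧ ∀ N : ℕ, 4 ≤ N →
    ∑ j ∈ Finset.Icc 2 (N - 2), Real.sqrt (min j (N - j) : ℕ) * PP j * PP (N - j) ≤
      K * Real.log N ^ 2 * PP N := by
  obtain ⟨K, hK, h⟩ := join_all
  refine ⟨8 * K, by positivity, fun N hN => ?_⟩
  calc _ ≤ ∑ j ∈ Finset.Icc 2 (N - 2), 8 * MM j (N - j) := by
        apply Finset.sum_le_sum
        intro j hj
        rw [Finset.mem_Icc] at hj
        exact MM_ge_sqrt hj.1 (by omega)
    _ = 8 * ∑ j ∈ Finset.Icc 2 (N - 2), MM j (N - j) := by rw [Finset.mul_sum]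
    _ ≤ 8 * (K * Real.log N ^ 2 * PP N) := by
        have := h N hN
        linarith
    _ = _ := by ring

/-- **the join inequality with the mean widths** -/
theorem join_width : ∃ K : ℝ, 0 ≤ K ∧ ∀ N : ℕ, 4 ≤ N →
    ∑ j ∈ (Finset.Icc 2 N).filter (fun j => 16 * j ^ 2 ≤ N), MW j * PP j * PP (N - j) ≤
      K * Real.log N ^ 2 * PP N := by
  obtain ⟨K, hK, h⟩ := join_all
  refine ⟨2 * K, by positivity, fun N hN => ?_⟩
  calc _ ≤ ∑ j ∈ (Finset.Icc 2 N).filter (fun j => 16 * j ^ 2 ≤ N), 2 * MM j (N - j) := by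
        apply Finset.sum_le_sum
        intro j hj
        rw [Finset.mem_filter, Finset.mem_Icc] at hj
        obtain ⟨⟨hj1, hj2⟩, hj3⟩ := hj
        have hjN : 2 * j ≤ N := by nlinarith
        refine MM_ge_width (M := 4 * j) hj1 (by omega) ?_ le_rfl
        have : (4 * j + 1) ^ 2 + 2 * j ≤ 2 * N := by nlinarith
        omega
    _ = 2 * ∑ j ∈ (Finset.Icc 2 N).filter (fun j => 16 * j ^ 2 ≤ N), MM j (N - j) := by
        rw [Finset.mul_sum]
    _ ≤ 2 * ∑ j ∈ Finset.Icc 2 (N - 2), MM j (N - j) := by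
        apply mul_le_mul_of_nonneg_left _ (by norm_num)
        apply Finset.sum_le_sum_of_subset_of_nonneg
        · intro j hj
          rw [Finset.mem_filter, Finset.mem_Icc] at hj
          rw [Finset.mem_Icc]
          obtain ⟨⟨hj1, hj2⟩, hj3⟩ := hj
          have hjN : 2 * j ≤ N := by nlinarith
          omega
        · intro j _ _
          exact MM_nonneg _ _
    _ ≤ 2 * (K * Real.log N ^ 2 * PP N) := by
        have := h N hN
        linarith
    _ = _ := by ring

/-- ratios of `Fp` -/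
lemma Fp_ratio2 : ∃ C : ℝ, 0 < C ∧ ∀ N : ℕ, 2 ≤ N →
    |Fp (N + 1) / Fp N - 1| ≤ C * (Real.log N / Real.sqrt N) := by
  obtain ⟨C, hC⟩ := Pool.Agent.W387.Q.f1
  refine ⟨|C| + 1, by positivity, fun N hN => ?_⟩
  have h1 := hC N hN
  rw [Pool.Agent.TH508.LT.rN_eq hN] at h1
  have hmu := mu_pos
  have hmu1 : 1 ≤ mu := one_le_mu
  have hP := PP_pos hN
  have e : Fp (N + 1) / Fp N - 1 = (PP (N + 1) / PP N - mu ^ 2) / mu ^ 2 := by
    unfold Fp
    have : mu ^ (2 * (N + 1)) = mu ^ (2 * N) * mu ^ 2 := by rw [← pow_add]; congr 1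
    rw [this]
    field_simp
  have hlog : 0 ≤ Real.log N / Real.sqrt N :=
    div_nonneg (Real.log_natCast_nonneg _) (Real.sqrt_nonneg _)
  rw [e, abs_div, abs_of_pos (pow_pos hmu 2), div_le_iff₀ (pow_pos hmu 2)]
  calc |PP (N + 1) / PP N - mu ^ 2| ≤ C * (Real.log N / Real.sqrt N) := h1
    _ ≤ (|C| + 1) * (Real.log N / Real.sqrt N) := by
        apply mul_le_mul_of_nonneg_right _ hlog
        have := le_abs_self C
        linarith
    _ = (|C| + 1) * (Real.log N / Real.sqrt N) * 1 := by rw [mul_one]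
    _ ≤ _ := by
        apply mul_le_mul_of_nonneg_left (one_le_pow₀ hmu1)
        exact mul_nonneg (by positivity) hlog

end Pool.Agent.Q218.PJ
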